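import Pool.Agent.Q206.Hyp.HoroFrame

/-!
# The structure field `ξ` in `(κ, μ, ν)_i`-nullity distributions

For `m = 1` (where `SU(2,1)/S(U(2)×U(1))` is the complex hyperbolic plane, of real dimension 4) there
is a real hypersurface, a horosphere, a frame `J₁, J₂, J₃` and constants `κ = 1/2`, `μ = ν = 0` with
`ξ` in the `(κ, μ, ν)_1`-nullity distribution at every point. For `m ≥ 3` there is none, in either
space; in fact at no point of a hypersurface is there a map `B` of the tangent space with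
`R(X, Y) ξ = η_i(Y) B X - η_i(X) B Y` for all tangent vectors `X`, `Y`.

The ambient spaces, hypersurfaces and their induced data are defined in `Pool.Agent.Q206.Hyp.Defs`,
frames in `Pool.Agent.Q206.Hyp.HoroFrame`.
-/

namespace Pool.Agent.Results.MP_f74330_gt.MixedNullity

open Pool.Agent.Q206.Hyp

/-- `ξ` lies in the `(κ, μ, ν)_i`-nullity distribution of the frame `F` at each point `u`: for all
tangent vectors (represented by vectors `X`, `Y` of the parameter space) `R(X, Y) ξ =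
η_i(Y) (κ X + μ A X + ν φ_i A X) - η_i(X) (κ Y + μ A Y + ν φ_i A Y)`. -/
def InNullity {s : Space} {m : ℕ} (M : Hypersurface s m) (F : Frame M) (i : Fin 3)
    (κ μ ν : Rn m → ℝ) : Prop :=
  ∀ u ∈ M.U, ∀ X Y : Rn m, M.R X Y M.ξ u =
    M.ηq (F.J i) u Y • (κ u • M.d u X + μ u • M.A u X + ν u • M.φq (F.J i) u (M.A u X))
      - M.ηq (F.J i) u X • (κ u • M.d u Y + μ u • M.A u Y + ν u • M.φq (F.J i) u (M.A u Y))

/-- There is a real hypersurface `M` of `SU(2,1)/S(U(2)×U(1))` (`m = 1`) with a frame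
`J₁, J₂, J₃` such that `ξ` lies in the `(1/2, 0, 0)_1`-nullity distribution at every point. For
`m ≥ 3` no real hypersurface of `G₂(ℂ^{m+2})` or of `SU(2,m)/S(U(2)×U(m))` has a frame, an index `i`
and functions `κ, μ, ν` with `ξ` in the `(κ, μ, ν)_i`-nullity distribution; moreover, at every point
`u` and for every map `B`, the identity `R(X, Y) ξ = η_i(Y) B X - η_i(X) B Y` fails. -/
theorem result :
    (∃ (M : Hypersurface .noncompact 1) (F : Frame M),
      InNullity M F 0 (fun _ => 1 / 2) (fun _ => 0) (fun _ => 0)) ∧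
    ∀ m : ℕ, 3 ≤ m → ∀ (s : Space) (M : Hypersurface s m) (F : Frame M) (i : Fin 3),
      (¬ ∃ κ μ ν : Rn m → ℝ, InNullity M F i κ μ ν) ∧
      ∀ u ∈ M.U, ∀ B : Rn m → Mat m, ∃ X Y : Rn m,
        M.R X Y M.ξ u ≠ M.ηq (F.J i) u Y • B X - M.ηq (F.J i) u X • B Y := by
  constructor
  · refine ⟨Horo.horo, Horo.frame, ?_⟩
    intro u _ X Y
    have h : ∀ X, Horo.horo.ηq (Horo.frame.J 0) u X = Horo.horo.η u X := by
      intro X
      rw [Hypersurface.ηq, Horo.xiq_eq, Hypersurface.η]
    rw [Horo.horo_R, h, h]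
    module
  · intro m hm s M F i
    have main : ∀ u ∈ M.U, ∀ B : Rn m → Mat m, ∃ X Y : Rn m,
        M.R X Y M.ξ u ≠ M.ηq (F.J i) u Y • B X - M.ηq (F.J i) u X • B Y := by
      intro u hu B
      by_contra! h
      exact M.no_field hm hu M.ξ_smooth M.ξ_tan M.ξ_orth (M.ξ_ne hu) (M.ξ_ker u)
        (M.ξq_tan (F.J i) u hu) (fun e => M.ξq_ker (F.J i) hu e) B h
    refine ⟨?_, main⟩
    rintro ⟨κ, μ, ν, h⟩
    obtain ⟨u, hu⟩ := M.connected.nonempty
    obtain ⟨X, Y, hXY⟩ := main u hu
      (fun X => κ u • M.d u X + μ u • M.A u X + ν u • M.φq (F.J i) u (M.A u X))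
    exact hXY (h u hu X Y)

end Pool.Agent.Results.MP_f74330_gt.MixedNullity
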